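import Pool.Agent.Lib.MP_cf885c_co.Mean

set_option autoImplicit false

/-!
The dilation invariant mean attached to a sequence of letters, the averaged Schur-Ramsey lemma
and the selection lemma.
-/

namespace Pool.Agent.Lib.MP_cf885c_co

open Filter Topology

/-- indicator of a predicate -/
noncomputable def ind {α : Type*} (P : α → Prop) (x : α) : ℝ := by
  classical exact if P x then 1 else 0

lemma ind_pos {α : Type*} {P : α → Prop} {x : α} (h : P x) : ind P x = 1 := by
  simp [ind, h]

lemma ind_neg {α : Type*} {P : α → Prop} {x : α} (h : ¬ P x) : ind P x = 0 := by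
  simp [ind, h]

lemma ind_nonneg {α : Type*} (P : α → Prop) (x : α) : 0 ≤ ind P x := by
  by_cases h : P x
  · rw [ind_pos h]; norm_num
  · rw [ind_neg h]

lemma ind_le_one {α : Type*} (P : α → Prop) (x : α) : ind P x ≤ 1 := by
  by_cases h : P x
  · rw [ind_pos h]
  · rw [ind_neg h]; norm_num

lemma ind_abs {α : Type*} (P : α → Prop) (x : α) : |ind P x| ≤ 1 := by
  rw [abs_of_nonneg (ind_nonneg P x)]
  exact ind_le_one P x

lemma ind_bdd {α : Type*} (P : α → Prop) : Bdd (ind P) := ⟨1, ind_abs P⟩

/-- The dilation invariant mean of the random variable `z * f n`, with `z` distributed according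
to an invariant mean on the positive rationals, and `n` along an ultrafilter. -/
theorem exists_letter_mean (f : ℕ → ℚ) : ∃ L : (ℚ → ℝ) → ℝ, IsMean L ∧
    (∀ g : ℚ, 0 < g → ∀ F : ℚ → ℝ, Bdd F → L (fun x => F (g * x)) = L F) ∧
    (∀ P : ℚ → Prop, (∀ z : ℚ, 0 < z → ∀ᶠ n in atTop, P (z * f n)) → L (ind P) = 1) := by
  obtain ⟨m, hm, hinv⟩ := exists_inv_mean {q : ℚ // 0 < q}
  let U : Ultrafilter ℕ := Filter.hyperfilter ℕ
  have hU : (U : Filter ℕ) ≤ atTop := by
    rw [← Nat.cofinite_eq_atTop]
    exact Filter.hyperfilter_le_cofinite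
  let I : (ℚ → ℝ) → {q : ℚ // 0 < q} → ℝ := fun F z => ulim U (fun n => F ((z : ℚ) * f n))
  have hI : ∀ F, Bdd F → Bdd (I F) := by
    rintro F ⟨C, hC⟩
    exact ⟨C, fun z => (isMean_ulim U).bound fun n => hC _⟩
  refine ⟨fun F => m (I F), ⟨?_, ?_, ?_⟩, ?_, ?_⟩
  · intro F G hF hG
    have : I (fun x => F x + G x) = fun z => I F z + I G z := by
      funext z
      exact (isMean_ulim U).add _ _ (hF.comp _) (hG.comp _)
    change m (I (fun x => F x + G x)) = _
    rw [this]
    exact hm.add _ _ (hI F hF) (hI G hG)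
  · intro F G hF hG h
    exact hm.mono _ _ (hI F hF) (hI G hG) fun z =>
      (isMean_ulim U).mono _ _ (hF.comp _) (hG.comp _) fun n => h _
  · intro c
    have : I (fun _ => c) = fun _ => c := by
      funext z
      exact (isMean_ulim U).const c
    change m (I (fun _ => c)) = _
    rw [this]
    exact hm.const c
  · intro g hg F hF
    have : I (fun x => F (g * x)) = fun z => I F (⟨g, hg⟩ * z) := by
      funext z
      simp only [I, Positive.val_mul, mul_assoc]
    change m (I (fun x => F (g * x))) = _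
    rw [this]
    exact hinv _ _ (hI F hF)
  · intro P hP
    have : I (ind P) = fun _ => 1 := by
      funext z
      refine ulim_eq_of_eventually U ((ind_bdd P).comp _) ?_
      have := hU (hP z z.2)
      filter_upwards [this] with n hn
      exact ind_pos hn
    change m (I (ind P)) = _
    rw [this]
    exact hm.const 1

/-- iterated functional on functions of lists -/
noncomputable def iter (L : (ℚ → ℝ) → ℝ) : ℕ → (List ℚ → ℝ) → ℝ
  | 0, F => F []
  | n + 1, F => L (fun y => iter L n (fun l => F (y :: l)))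

lemma iter_bound {L : (ℚ → ℝ) → ℝ} (hL : IsMean L) {C : ℝ} (n : ℕ) :
    ∀ {F : List ℚ → ℝ}, (∀ x, |F x| ≤ C) → |iter L n F| ≤ C := by
  induction n with
  | zero => intro F hF; exact hF []
  | succ n ih =>
    intro F hF
    exact hL.bound fun y => ih fun x => hF _

lemma iter_bdd {L : (ℚ → ℝ) → ℝ} (hL : IsMean L) (n : ℕ) {F : List ℚ → ℝ} (hF : Bdd F) :
    Bdd (fun y => iter L n (fun l => F (y :: l))) := by
  obtain ⟨C, hC⟩ := hF
  exact ⟨C, fun y => iter_bound hL n fun x => hC _⟩

lemma iter_const {L : (ℚ → ℝ) → ℝ} (hL : IsMean L) (n : ℕ) (c : ℝ) :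
    iter L n (fun _ => c) = c := by
  induction n with
  | zero => rfl
  | succ n ih => simp only [iter, ih, hL.const]

lemma iter_mono {L : (ℚ → ℝ) → ℝ} (hL : IsMean L) (n : ℕ) : ∀ {F G : List ℚ → ℝ}, Bdd F → Bdd G →
    (∀ l, l.length = n → F l ≤ G l) → iter L n F ≤ iter L n G := by
  induction n with
  | zero => intro F G _ _ h; exact h [] rfl
  | succ n ih =>
    intro F G hF hG h
    exact hL.mono _ _ (iter_bdd hL n hF) (iter_bdd hL n hG) fun y =>
      ih (hF.comp _) (hG.comp _) fun l hl => h _ (by simp [hl])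

lemma iter_add {L : (ℚ → ℝ) → ℝ} (hL : IsMean L) (n : ℕ) : ∀ {F G : List ℚ → ℝ}, Bdd F → Bdd G →
    iter L n (fun l => F l + G l) = iter L n F + iter L n G := by
  induction n with
  | zero => intro F G _ _; rfl
  | succ n ih =>
    intro F G hF hG
    have : (fun y => iter L n (fun l => F (y :: l) + G (y :: l)))
        = fun y => iter L n (fun l => F (y :: l)) + iter L n (fun l => G (y :: l)) := by
      funext y
      exact ih (hF.comp _) (hG.comp _)
    change L (fun y => iter L n (fun l => F (y :: l) + G (y :: l))) = _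
    rw [this]
    exact hL.add _ _ (iter_bdd hL n hF) (iter_bdd hL n hG)

lemma isMean_iter {L : (ℚ → ℝ) → ℝ} (hL : IsMean L) (n : ℕ) : IsMean (iter L n) where
  add _ _ hf hg := iter_add hL n hf hg
  mono _ _ hf hg h := iter_mono hL n hf hg fun l _ => h l
  const c := iter_const hL n c

lemma iter_drop {L : (ℚ → ℝ) → ℝ} (hL : IsMean L) (i n : ℕ) (F : List ℚ → ℝ) :
    iter L (i + n) (fun l => F (l.drop i)) = iter L n F := by
  induction i with
  | zero => simp
  | succ i ih =>
    rw [show i + 1 + n = (i + n) + 1 by ring]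
    change L (fun y => iter L (i + n) (fun l => F ((y :: l).drop (i + 1)))) = _
    simp only [List.drop_succ_cons, ih, hL.const]

lemma iter_take {L : (ℚ → ℝ) → ℝ} (m n : ℕ) :
    ∀ (G : ℚ → List ℚ → ℝ),
    iter L (m + n) (fun l => G (l.take m).sum (l.drop m))
      = conv L m (fun B => iter L n (fun l => G B l)) := by
  induction m with
  | zero => intro G; simp [conv]
  | succ m ih =>
    intro G
    rw [show m + 1 + n = (m + n) + 1 by ring]
    change L (fun y => iter L (m + n) (fun l =>
      G ((y :: l).take (m + 1)).sum ((y :: l).drop (m + 1)))) = _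
    simp only [List.drop_succ_cons, List.take_succ_cons, List.sum_cons]
    change _ = L (fun y => conv L m (fun x => iter L n (fun l => G (y + x) l)))
    congr 1
    funext y
    exact ih (fun B l => G (y + B) l)

/-- marginal of two consecutive segments -/
lemma iter_segments {L : (ℚ → ℝ) → ℝ} (hL : IsMean L) (i m m' n : ℕ) (G : ℚ → ℚ → ℝ) :
    iter L (i + (m + (m' + n))) (fun l => G ((l.drop i).take m).sum
      (((l.drop i).drop m).take m').sum)
      = conv L m (fun B => conv L m' (fun Q => G B Q)) := by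
  rw [iter_drop hL i (m + (m' + n)) (fun l => G (l.take m).sum ((l.drop m).take m').sum)]
  rw [iter_take m (m' + n) (fun B l => G B (l.take m').sum)]
  congr 1
  funext B
  rw [iter_take m' n (fun Q _ => G B Q)]
  simp only [iter_const hL]

/-- Ramsey for triangles in finitely many colours. -/
theorem ramsey_triangle (r : ℕ) : ∃ N : ℕ, ∀ {κ : Type} [DecidableEq κ] (col : ℕ → ℕ → κ)
    (S : Finset κ) (I : Finset ℕ), S.card ≤ r → N ≤ I.card →
    (∀ i ∈ I, ∀ j ∈ I, i < j → col i j ∈ S) →
    ∃ i ∈ I, ∃ j ∈ I, ∃ k ∈ I, i < j ∧ j < k ∧ col j k = col i j ∧ col i k = col i j := by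
  induction r with
  | zero =>
    refine ⟨2, ?_⟩
    intro κ _ col S I hS hI hcol
    obtain ⟨a, ha, b, hb, hab⟩ := Finset.one_lt_card.1 (lt_of_lt_of_le one_lt_two hI)
    have hS' : S = ∅ := Finset.card_eq_zero.1 (Nat.le_zero.1 hS)
    rcases lt_or_gt_of_ne hab with h | h
    · have := hcol a ha b hb h
      simp [hS'] at this
    · have := hcol b hb a ha h
      simp [hS'] at this
  | succ r ih =>
    obtain ⟨N, hN⟩ := ih
    refine ⟨(r + 1) * N + 2, ?_⟩
    intro κ _ col S I hS hI hcol
    have hne : I.Nonempty := by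
      rw [← Finset.card_pos]; omega
    let K := I.max' hne
    have hK : K ∈ I := Finset.max'_mem _ _
    have hlt : ∀ i ∈ I.erase K, i < K := fun i hi =>
      lt_of_le_of_ne (Finset.le_max' _ _ (Finset.mem_of_mem_erase hi)) (Finset.ne_of_mem_erase hi)
    have hcard : (I.erase K).card = I.card - 1 := Finset.card_erase_of_mem hK
    have hmaps : ∀ i ∈ I.erase K, col i K ∈ S := fun i hi =>
      hcol i (Finset.mem_of_mem_erase hi) K hK (hlt i hi)
    have hlt' : S.card * N < (I.erase K).card := by
      have : S.card * N ≤ (r + 1) * N := Nat.mul_le_mul_right _ hS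
      omega
    obtain ⟨s, hs, hsc⟩ := Finset.exists_lt_card_fiber_of_mul_lt_card_of_maps_to hmaps hlt'
    by_cases hex : ∃ i ∈ (I.erase K).filter (fun i => col i K = s),
        ∃ j ∈ (I.erase K).filter (fun i => col i K = s), i < j ∧ col i j = s
    · obtain ⟨i, hi, j, hj, hij, hc⟩ := hex
      rw [Finset.mem_filter] at hi hj
      refine ⟨i, Finset.mem_of_mem_erase hi.1, j, Finset.mem_of_mem_erase hj.1, K, hK, hij,
        hlt j hj.1, ?_, ?_⟩
      · rw [hj.2, hc]
      · rw [hi.2, hc]
    · push Not at hex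
      obtain ⟨i, hi, j, hj, k, hk, h⟩ := hN col (S.erase s)
        ((I.erase K).filter (fun i => col i K = s))
        (by rw [Finset.card_erase_of_mem hs]; omega) hsc.le
        (fun i hi j hj hij => by
          refine Finset.mem_erase.2 ⟨hex i hi j hj hij, ?_⟩
          rw [Finset.mem_filter] at hi hj
          exact hcol i (Finset.mem_of_mem_erase hi.1) j (Finset.mem_of_mem_erase hj.1) hij)
      exact ⟨i, Finset.mem_of_mem_erase (Finset.mem_filter.1 hi).1, j,
        Finset.mem_of_mem_erase (Finset.mem_filter.1 hj).1, k,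
        Finset.mem_of_mem_erase (Finset.mem_filter.1 hk).1, h⟩

/-- Averaged Schur-Ramsey lemma. -/
theorem exists_popular {κ : Type} [Finite κ] {L : (ℚ → ℝ) → ℝ} (hL : IsMean L) (φ : ℚ → κ) :
    ∃ (m m' : ℕ) (s : κ) (d : ℝ), 1 ≤ m ∧ 1 ≤ m' ∧ 0 < d ∧
      d ≤ conv L m (ind (fun B => φ B = s ∧
        d ≤ conv L m' (ind (fun Q => φ Q = s ∧ φ (B + Q) = s)))) := by
  classical
  have := Fintype.ofFinite κ
  obtain ⟨N, hN⟩ := ramsey_triangle (Fintype.card κ)
  let T : Finset (ℕ × ℕ × ℕ × κ) :=
    ((Finset.range (N + 1)) ×ˢ (Finset.range (N + 1)) ×ˢ (Finset.range (N + 1)) ×ˢ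
      (Finset.univ : Finset κ)).filter
      (fun t => 1 ≤ t.2.1 ∧ 1 ≤ t.2.2.1 ∧ t.1 + t.2.1 + t.2.2.1 ≤ N)
  let ev : (ℕ × ℕ × ℕ × κ) → List ℚ → Prop := fun t l =>
    φ ((l.drop t.1).take t.2.1).sum = t.2.2.2 ∧
    φ (((l.drop t.1).drop t.2.1).take t.2.2.1).sum = t.2.2.2 ∧
    φ (((l.drop t.1).take t.2.1).sum + (((l.drop t.1).drop t.2.1).take t.2.2.1).sum) = t.2.2.2
  have hpt : ∀ l : List ℚ, (1 : ℝ) ≤ ∑ t ∈ T, ind (ev t) l := by
    intro l
    obtain ⟨i, hi, j, hj, k, hk, hij, hjk, h1, h2⟩ := hN
      (fun i j => φ ((l.drop i).take (j - i)).sum) Finset.univ (Finset.range (N + 1))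
      (by rw [Finset.card_univ]) (by simp) (fun _ _ _ _ _ => Finset.mem_univ _)
    rw [Finset.mem_range] at hi hj hk
    let t : ℕ × ℕ × ℕ × κ := (i, j - i, k - j, φ ((l.drop i).take (j - i)).sum)
    have ht : t ∈ T := by
      simp only [T, t, Finset.mem_filter, Finset.mem_product, Finset.mem_range, Finset.mem_univ,
        and_true]
      omega
    have hev : ev t l := by
      have hd : (l.drop i).drop (j - i) = l.drop j := by
        rw [List.drop_drop]; congr 1; omega
      refine ⟨rfl, ?_, ?_⟩
      · simp only [t, hd]; exact h1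
      · have : ((l.drop i).take (k - i)).sum
            = ((l.drop i).take (j - i)).sum + (((l.drop i).drop (j - i)).take (k - j)).sum := by
          rw [show k - i = (j - i) + (k - j) by omega, List.take_add, List.sum_append]
        simp only [t]
        rw [← this]; exact h2
    calc (1 : ℝ) = ind (ev t) l := (ind_pos hev).symm
      _ ≤ ∑ t ∈ T, ind (ev t) l :=
        Finset.single_le_sum (f := fun t => ind (ev t) l) (fun t _ => ind_nonneg _ _) ht
  have hsum : (1 : ℝ) ≤ ∑ t ∈ T, iter L N (ind (ev t)) := by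
    rw [← (isMean_iter hL N).sum T (fun t _ => ind_bdd (ev t))]
    calc (1 : ℝ) = iter L N (fun _ => 1) := (iter_const hL N 1).symm
      _ ≤ _ := (isMean_iter hL N).mono _ _ (Bdd.const 1) (Bdd.sum T fun t _ => ind_bdd (ev t)) hpt
  have hTne : T.Nonempty := by
    rw [Finset.nonempty_iff_ne_empty]
    rintro h
    rw [h] at hsum
    simp at hsum
    linarith
  have hTc : (0 : ℝ) < T.card := by exact_mod_cast Finset.card_pos.2 hTne
  obtain ⟨t, htT, ht⟩ : ∃ t ∈ T, 1 / (T.card : ℝ) ≤ iter L N (ind (ev t)) := by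
    by_contra hcon
    push Not at hcon
    have : ∑ t ∈ T, iter L N (ind (ev t)) < ∑ _t ∈ T, 1 / (T.card : ℝ) :=
      Finset.sum_lt_sum_of_nonempty hTne hcon
    rw [Finset.sum_const, nsmul_eq_mul, mul_one_div_cancel hTc.ne'] at this
    linarith
  obtain ⟨i, m, m', s⟩ := t
  simp only [T, Finset.mem_filter, Finset.mem_product, Finset.mem_range, Finset.mem_univ,
    and_true] at htT
  obtain ⟨-, hm, hm', hle⟩ := htT
  obtain ⟨n, rfl⟩ : ∃ n, N = i + (m + (m' + n)) := ⟨N - (i + (m + m')), by omega⟩
  set d : ℝ := 1 / (2 * (T.card : ℝ)) with hd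
  have hd0 : 0 < d := by positivity
  have h2d : 1 / (T.card : ℝ) = 2 * d := by rw [hd]; field_simp
  refine ⟨m, m', s, d, hm, hm', hd0, ?_⟩
  have key := iter_segments hL i m m' n
    (fun B Q => ind (fun Q => φ B = s ∧ φ Q = s ∧ φ (B + Q) = s) Q)
  have hval : iter L (i + (m + (m' + n))) (ind (ev (i, m, m', s)))
      = conv L m (fun B => conv L m' (fun Q =>
        ind (fun Q => φ B = s ∧ φ Q = s ∧ φ (B + Q) = s) Q)) := by
    rw [← key]
    congr 1
  rw [hval, h2d] at ht
  have hmono : conv L m (fun B => conv L m' (fun Q =>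
        ind (fun Q => φ B = s ∧ φ Q = s ∧ φ (B + Q) = s) Q))
      ≤ conv L m (fun B => ind (fun B => φ B = s ∧
        d ≤ conv L m' (ind (fun Q => φ Q = s ∧ φ (B + Q) = s))) B + d) := by
    refine (isMean_conv hL m).mono _ _ ⟨1, fun B => conv_bound hL m' fun Q => ind_abs _ _⟩
      ((ind_bdd _).add (Bdd.const d)) fun B => ?_
    by_cases hB : φ B = s
    · have h1 : (fun Q => ind (fun Q => φ B = s ∧ φ Q = s ∧ φ (B + Q) = s) Q)
          = ind (fun Q => φ Q = s ∧ φ (B + Q) = s) := by
        funext Q
        simp [ind, hB]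
      rw [h1]
      by_cases hd' : d ≤ conv L m' (ind (fun Q => φ Q = s ∧ φ (B + Q) = s))
      · have h5 : ind (fun B => φ B = s ∧
            d ≤ conv L m' (ind (fun Q => φ Q = s ∧ φ (B + Q) = s))) B = 1 := ind_pos ⟨hB, hd'⟩
        rw [h5]
        have := (abs_le.1 (conv_bound hL m' (f := ind (fun Q => φ Q = s ∧ φ (B + Q) = s))
          fun Q => ind_abs _ _)).2
        linarith
      · push Not at hd'
        have := ind_nonneg (fun B => φ B = s ∧
          d ≤ conv L m' (ind (fun Q => φ Q = s ∧ φ (B + Q) = s))) B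
        linarith
    · have h1 : (fun Q => ind (fun Q => φ B = s ∧ φ Q = s ∧ φ (B + Q) = s) Q)
          = fun _ => (0 : ℝ) := by
        funext Q
        simp [ind, hB]
      rw [h1, (isMean_conv hL m').const]
      have := ind_nonneg (fun B => φ B = s ∧
          d ≤ conv L m' (ind (fun Q => φ Q = s ∧ φ (B + Q) = s))) B
      linarith
  rw [(isMean_conv hL m).add _ _ (ind_bdd _) (Bdd.const d), (isMean_conv hL m).const] at hmono
  have : conv L m (ind (fun B => φ B = s ∧
        d ≤ conv L m' (ind (fun Q => φ Q = s ∧ φ (B + Q) = s))))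
      = conv L m (fun B => ind (fun B => φ B = s ∧
        d ≤ conv L m' (ind (fun Q => φ Q = s ∧ φ (B + Q) = s))) B) := rfl
  rw [this]
  linarith

/-- Sums of letters `z * f k` with `z ∈ E k`, strictly increasing indices in `[N, M)`. -/
inductive Good (E : ℕ → Finset ℚ) (f : ℕ → ℚ) (N : ℕ) : ℕ → ℚ → Prop
  | zero : Good E f N N 0
  | skip {M : ℕ} {g : ℚ} : Good E f N M g → Good E f N (M + 1) g
  | add {M : ℕ} {g z : ℚ} : Good E f N M g → z ∈ E M → Good E f N (M + 1) (g + z * f M)

lemma Good.le {E : ℕ → Finset ℚ} {f : ℕ → ℚ} {N M : ℕ} {g : ℚ} (h : Good E f N M g) :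
    N ≤ M := by
  induction h with
  | zero => exact le_rfl
  | skip _ ih => omega
  | add _ _ ih => omega

lemma Good.extend {E : ℕ → Finset ℚ} {f : ℕ → ℚ} {N M : ℕ} {g : ℚ} (h : Good E f N M g) :
    ∀ k, Good E f N (M + k) g := by
  intro k
  induction k with
  | zero => exact h
  | succ k ih => exact ih.skip

lemma Good.extend' {E : ℕ → Finset ℚ} {f : ℕ → ℚ} {N M M' : ℕ} {g : ℚ} (h : Good E f N M g)
    (hM : M ≤ M') : Good E f N M' g := by
  obtain ⟨k, rfl⟩ := Nat.exists_eq_add_of_le hM
  exact h.extend k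

lemma Good.concat {E : ℕ → Finset ℚ} {f : ℕ → ℚ} {N M M' : ℕ} {g g' : ℚ} (h : Good E f N M g)
    (h' : Good E f M M' g') : Good E f N M' (g + g') := by
  induction h' with
  | zero => simpa using h
  | skip _ ih => exact ih.skip
  | add _ hz ih =>
    rw [← add_assoc]
    exact ih.add hz

lemma Good.of_le {E : ℕ → Finset ℚ} {f : ℕ → ℚ} {N N' M : ℕ} {g : ℚ} (h : Good E f N' M g)
    (hN : N ≤ N') : Good E f N M g := by
  have h0 : Good E f N N' 0 := Good.zero.extend' hN
  simpa using h0.concat h

/-- Selection lemma: an event of positive measure contains a generic sum of letters. -/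
theorem selection {E : ℕ → Finset ℚ} {f : ℕ → ℚ} (hf : ∀ n, 0 < f n) (hEmono : Monotone E)
    (hEex : ∀ q, ∃ n, q ∈ E n) {L : (ℚ → ℝ) → ℝ} (hL : IsMean L)
    (hlet : ∀ P : ℚ → Prop, (∀ z : ℚ, 0 < z → ∀ᶠ n in atTop, P (z * f n)) → L (ind P) = 1)
    (W : Finset ℚ) (m : ℕ) :
    ∀ (P : ℚ → Prop) (N : ℕ), 0 < conv L m (ind P) →
      ∃ (g : ℚ) (M : ℕ), P g ∧ N ≤ M ∧ 0 ≤ g ∧ (1 ≤ m → 0 < g) ∧
        ∀ c ∈ W, Good E f N M (c * g) := by
  induction m with
  | zero =>
    intro P N h
    have hP : P 0 := by
      by_contra hP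
      have : conv L 0 (ind P) = 0 := ind_neg hP
      linarith
    refine ⟨0, N, hP, le_rfl, le_rfl, fun h => by omega, fun c _ => ?_⟩
    rw [mul_zero]
    exact Good.zero
  | succ m ih =>
    intro P N h
    let A : ℚ → Prop := fun y => ∃ n z, N ≤ n ∧ 0 < z ∧ y = z * f n ∧ ∀ c ∈ W, c * z ∈ E n
    have hA : L (ind A) = 1 := by
      refine hlet A fun z hz => ?_
      have hW : ∀ᶠ n in atTop, ∀ c ∈ W, c * z ∈ E n := by
        rw [Filter.eventually_all_finset]
        intro c _
        obtain ⟨k, hk⟩ := hEex (c * z)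
        filter_upwards [eventually_ge_atTop k] with n hn
        exact hEmono hn hk
      filter_upwards [hW, eventually_ge_atTop N] with n hn hN
      exact ⟨n, z, hN, hz, rfl, hn⟩
    obtain ⟨y, hy, hpos⟩ : ∃ y, A y ∧ 0 < conv L m (ind (fun x => P (y + x))) := by
      by_contra hcon
      push Not at hcon
      have h1 : conv L (m + 1) (ind P) + L (ind A) ≤ 1 := by
        change L (fun y => conv L m (fun x => ind P (y + x))) + L (ind A) ≤ 1
        rw [← hL.add _ _ (conv_bdd hL m (ind_bdd P)) (ind_bdd A)]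
        calc L (fun y => conv L m (fun x => ind P (y + x)) + ind A y) ≤ L (fun _ => 1) := by
              refine hL.mono _ _ ((conv_bdd hL m (ind_bdd P)).add (ind_bdd A)) (Bdd.const 1)
                fun y => ?_
              by_cases hy : A y
              · have := hcon y hy
                rw [ind_pos hy]
                have h2 : conv L m (fun x => ind P (y + x)) ≤ 0 := this
                linarith
              · rw [ind_neg hy]
                have := (abs_le.1 (conv_bound hL m (f := fun x => ind P (y + x))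
                  fun x => ind_abs _ _)).2
                linarith
          _ = 1 := hL.const 1
      linarith
    obtain ⟨n, z, hNn, hz, rfl, hW⟩ := hy
    obtain ⟨g, M, hg, hM, hg0, -, hgood⟩ := ih _ (n + 1) hpos
    have hzf : 0 < z * f n := mul_pos hz (hf n)
    refine ⟨z * f n + g, M, hg, by omega, by linarith, fun _ => by linarith, fun c hc => ?_⟩
    have h0 : Good E f N (n + 1) (0 + (c * z) * f n) := (Good.zero.extend' hNn).add (hW c hc)
    have h1 := h0.concat (hgood c hc)
    convert h1 using 1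
    ring

/-- Pigeonhole for dilates. -/
theorem pigeonhole {L : (ℚ → ℝ) → ℝ} (hL : IsMean L) {d : ℝ} (hd : 0 < d)
    (T : ℕ → ℚ → Prop) (hT : ∀ n, d ≤ L (ind (T n))) :
    ∃ i j, i < j ∧ 0 < L (ind (fun x => T i x ∧ T j x)) := by
  classical
  by_contra hcon
  push Not at hcon
  obtain ⟨M, hM⟩ := exists_nat_gt (1 / d)
  have hM1 : 1 < (M : ℝ) * d := by
    rwa [div_lt_iff₀ hd] at hM
  let Pr : Finset (ℕ × ℕ) := (Finset.range M ×ˢ Finset.range M).filter (fun p => p.1 < p.2)
  have hpt : ∀ x, ∑ n ∈ Finset.range M, ind (T n) x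
      ≤ 1 + ∑ p ∈ Pr, ind (fun x => T p.1 x ∧ T p.2 x) x := by
    intro x
    by_cases h : ∃ i j, i < j ∧ i < M ∧ j < M ∧ T i x ∧ T j x
    · -- at least two events hold
      have hstep : ∀ n, n ≤ M → ∑ k ∈ Finset.range n, ind (T k) x
          ≤ 1 + ∑ p ∈ (Finset.range n ×ˢ Finset.range n).filter (fun p => p.1 < p.2),
            ind (fun x => T p.1 x ∧ T p.2 x) x := by
        intro n hn
        induction n with
        | zero => simp
        | succ n ih =>
          have ih' := ih (by omega)
          rw [Finset.sum_range_succ]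
          have hsub : ((Finset.range n ×ˢ Finset.range n).filter (fun p => p.1 < p.2))
              ⊆ ((Finset.range (n + 1) ×ˢ Finset.range (n + 1)).filter (fun p => p.1 < p.2)) := by
            intro p hp
            simp only [Finset.mem_filter, Finset.mem_product, Finset.mem_range] at hp ⊢
            omega
          by_cases hn' : T n x
          · by_cases hex : ∃ i, i < n ∧ T i x
            · obtain ⟨i, hi, hTi⟩ := hex
              have hnot : (i, n) ∉ ((Finset.range n ×ˢ Finset.range n).filter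
                  (fun p : ℕ × ℕ => p.1 < p.2)) := by
                simp
              have hmem : insert (i, n) ((Finset.range n ×ˢ Finset.range n).filter
                  (fun p : ℕ × ℕ => p.1 < p.2))
                  ⊆ ((Finset.range (n + 1) ×ˢ Finset.range (n + 1)).filter
                    (fun p => p.1 < p.2)) := by
                intro p hp
                rcases Finset.mem_insert.1 hp with rfl | hp
                · simp only [Finset.mem_filter, Finset.mem_product, Finset.mem_range]
                  omega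
                · exact hsub hp
              have h3 := Finset.sum_le_sum_of_subset_of_nonneg hmem
                (f := fun p => ind (fun x => T p.1 x ∧ T p.2 x) x)
                (fun p _ _ => ind_nonneg _ _)
              rw [Finset.sum_insert hnot] at h3
              have h4 : ind (fun x => T (i, n).1 x ∧ T (i, n).2 x) x = 1 := ind_pos ⟨hTi, hn'⟩
              rw [ind_pos hn']
              linarith
            · have hz : ∑ k ∈ Finset.range n, ind (T k) x = 0 := by
                refine Finset.sum_eq_zero fun k hk => ind_neg fun hk' => hex ⟨k, ?_, hk'⟩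
                exact Finset.mem_range.1 hk
              rw [hz, ind_pos hn']
              have := Finset.sum_nonneg (s := (Finset.range (n + 1) ×ˢ
                Finset.range (n + 1)).filter (fun p => p.1 < p.2))
                (f := fun p => ind (fun x => T p.1 x ∧ T p.2 x) x) fun p _ => ind_nonneg _ _
              linarith
          · rw [ind_neg hn', add_zero]
            have h3 := Finset.sum_le_sum_of_subset_of_nonneg hsub
                (f := fun p => ind (fun x => T p.1 x ∧ T p.2 x) x)
                (fun p _ _ => ind_nonneg _ _)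
            linarith
      exact hstep M le_rfl
    · push Not at h
      have hnn : 0 ≤ ∑ p ∈ Pr, ind (fun x => T p.1 x ∧ T p.2 x) x :=
        Finset.sum_nonneg fun p _ => ind_nonneg _ _
      suffices ∑ n ∈ Finset.range M, ind (T n) x ≤ 1 by linarith
      by_cases hex : ∃ i, i < M ∧ T i x
      · obtain ⟨i, hi, hTi⟩ := hex
        rw [Finset.sum_eq_single_of_mem i (Finset.mem_range.2 hi)]
        · exact ind_le_one _ _
        · intro j hj hji
          refine ind_neg fun hTj => ?_
          rcases lt_or_gt_of_ne hji with hlt | hlt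
          · exact h j i hlt (Finset.mem_range.1 hj) hi hTj hTi
          · exact h i j hlt hi (Finset.mem_range.1 hj) hTi hTj
      · rw [Finset.sum_eq_zero fun k hk => ind_neg fun hk' => hex ⟨k, Finset.mem_range.1 hk, hk'⟩]
        norm_num
  have h1 : L (fun x => ∑ n ∈ Finset.range M, ind (T n) x)
      ≤ L (fun x => 1 + ∑ p ∈ Pr, ind (fun x => T p.1 x ∧ T p.2 x) x) :=
    hL.mono _ _ (Bdd.sum _ fun n _ => ind_bdd _)
      ((Bdd.const 1).add (Bdd.sum _ fun p _ => ind_bdd _)) hpt
  rw [hL.sum _ fun n _ => ind_bdd _, hL.add _ _ (Bdd.const 1) (Bdd.sum _ fun p _ => ind_bdd _),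
    hL.const, hL.sum _ fun p _ => ind_bdd _] at h1
  have h2 : (M : ℝ) * d ≤ ∑ n ∈ Finset.range M, L (ind (T n)) := by
    calc (M : ℝ) * d = ∑ _n ∈ Finset.range M, d := by simp
      _ ≤ _ := Finset.sum_le_sum fun n _ => hT n
  have h3 : ∑ p ∈ Pr, L (ind (fun x => T p.1 x ∧ T p.2 x)) ≤ 0 := by
    refine Finset.sum_nonpos fun p hp => ?_
    simp only [Pr, Finset.mem_filter] at hp
    exact hcon p.1 p.2 hp.2
  linarith

end Pool.Agent.Lib.MP_cf885c_co
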