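import Pool.Agent.Lib.MP_cf885c_co.Letters

set_option autoImplicit false

/-!
Level zero: absorption along a sequence of letters in a minimal system (van der Waerden).
-/

namespace Pool.Agent.Lib.MP_cf885c_co

open Filter Topology

section Level

variable {κ : Type} [TopologicalSpace κ] [DiscreteTopology κ] [Finite κ]

/-- translation -/
def tr (x : ℚ) (w : ℚ → ℚ → κ) : ℚ → ℚ → κ := fun y => w (y + x)

omit [TopologicalSpace κ] [DiscreteTopology κ] [Finite κ] in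
lemma tr_tr (x y : ℚ) (w : ℚ → ℚ → κ) : tr x (tr y w) = tr (x + y) w := by
  funext z v
  simp [tr, add_assoc]

omit [DiscreteTopology κ] [Finite κ] in
lemma continuous_tr (x : ℚ) : Continuous (tr x : (ℚ → ℚ → κ) → (ℚ → ℚ → κ)) := by
  refine continuous_pi fun y => ?_
  exact continuous_apply (y + x)

omit [Finite κ] in
lemma isClopen_cyl (y v : ℚ) (c : κ) : IsClopen {w : ℚ → ℚ → κ | w y v = c} := by
  have h : Continuous (fun w : ℚ → ℚ → κ => w y v) :=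
    (continuous_apply v).comp (continuous_apply y)
  exact (isClopen_discrete {c}).preimage h

omit [DiscreteTopology κ] in
/-- Existence of a minimal subsystem, in the form we need. -/
lemma exists_minimal_system [T2Space κ] (X : Set (ℚ → ℚ → κ)) (hXc : IsClosed X)
    (hXn : X.Nonempty)
    (hXi : ∀ x, ∀ w ∈ X, tr x w ∈ X) :
    ∃ M : Set (ℚ → ℚ → κ), M ⊆ X ∧ IsClosed M ∧ M.Nonempty ∧ (∀ x, ∀ w ∈ M, tr x w ∈ M) ∧
      ∀ U : Set (ℚ → ℚ → κ), IsOpen U → (U ∩ M).Nonempty →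
        ∃ G : Finset ℚ, ∀ w ∈ M, ∃ g ∈ G, tr g w ∈ U := by
  let S : Set (Set (ℚ → ℚ → κ)) :=
    {F | IsClosed F ∧ F.Nonempty ∧ ∀ x, ∀ w ∈ F, tr x w ∈ F}
  obtain ⟨M, hMX, hM⟩ := zorn_superset_nonempty S (by
    intro c hcS hc hcn
    have : Nonempty c := hcn.to_subtype
    refine ⟨⋂₀ c, ⟨isClosed_sInter fun F hF => (hcS hF).1, ?_, ?_⟩, fun s hs =>
      Set.sInter_subset_of_mem hs⟩
    · refine IsCompact.nonempty_sInter_of_directed_nonempty_isCompact_isClosed ?_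
        (fun U hU => (hcS hU).2.1) (fun U hU => (hcS hU).1.isCompact) (fun U hU => (hcS hU).1)
      intro a ha b hb
      rcases hc.total ha hb with h | h
      · exact ⟨a, ha, le_rfl, h⟩
      · exact ⟨b, hb, h, le_rfl⟩
    · intro x w hw F hF
      exact (hcS hF).2.2 x w (hw F hF)) X ⟨hXc, hXn, hXi⟩
  obtain ⟨hMc, hMn, hMi⟩ := hM.prop
  refine ⟨M, hMX, hMc, hMn, hMi, ?_⟩
  intro U hU hUM
  have hcov : M ⊆ ⋃ x : ℚ, (tr x) ⁻¹' U := by
    by_contra hcon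
    have hne : (M \ ⋃ x : ℚ, (tr x) ⁻¹' U).Nonempty := Set.sdiff_nonempty.2 hcon
    have hmem : (M \ ⋃ x : ℚ, (tr x) ⁻¹' U) ∈ S := by
      refine ⟨?_, hne, ?_⟩
      · exact hMc.sdiff (isOpen_iUnion fun x => hU.preimage (continuous_tr x))
      · rintro x w ⟨hw, hw'⟩
        refine ⟨hMi x w hw, fun h => hw' ?_⟩
        obtain ⟨y, hy⟩ := Set.mem_iUnion.1 h
        refine Set.mem_iUnion.2 ⟨y + x, ?_⟩
        change tr (y + x) w ∈ U
        rw [← tr_tr]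
        exact hy
    have hsub := hM.le_of_le hmem Set.sdiff_subset
    obtain ⟨w, hwU, hwM⟩ := hUM
    refine (hsub hwM).2 (Set.mem_iUnion.2 ⟨0, ?_⟩)
    change tr 0 w ∈ U
    have : tr 0 w = w := by funext y; simp [tr]
    rwa [this]
  obtain ⟨G, hG⟩ := hMc.isCompact.elim_finite_subcover _
    (fun x => hU.preimage (continuous_tr x)) hcov
  refine ⟨G, fun w hw => ?_⟩
  obtain ⟨g, hg, hgw⟩ := Set.mem_iUnion₂.1 (hG hw)
  exact ⟨g, hg, hgw⟩

/-- One step of the nested construction. -/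
lemma level_step (M : Set (ℚ → ℚ → κ)) (hMi : ∀ x, ∀ w ∈ M, tr x w ∈ M)
    (hMmin : ∀ U : Set (ℚ → ℚ → κ), IsOpen U → (U ∩ M).Nonempty →
        ∃ G : Finset ℚ, ∀ w ∈ M, ∃ g ∈ G, tr g w ∈ U)
    (U : Set (ℚ → ℚ → κ)) (hU : IsClopen U) (hUM : (U ∩ M).Nonempty) (Z : Finset ℚ) :
    ∃ (f : ℚ) (U' : Set (ℚ → ℚ → κ)), 0 < f ∧ IsClopen U' ∧ (U' ∩ M).Nonempty ∧ U' ⊆ U ∧
      ∀ w ∈ U', ∀ z ∈ Z, tr (z * f) w ∈ U ∧ ∀ v ∈ Z, w (z * f) v = w 0 v := by
  classical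
  obtain ⟨w₀, hw₀U, hw₀M⟩ := hUM
  let U₁ : Set (ℚ → ℚ → κ) := U ∩ ⋂ v ∈ Z, {w | w 0 v = w₀ 0 v}
  have hU₁ : IsClopen U₁ := hU.inter (isClopen_biInter_finset fun v _ => isClopen_cyl _ _ _)
  have hw₀U₁ : w₀ ∈ U₁ := ⟨hw₀U, Set.mem_iInter₂.2 fun v _ => rfl⟩
  obtain ⟨G, hG⟩ := hMmin U₁ hU₁.isOpen ⟨w₀, hw₀U₁, hw₀M⟩
  have hC : ∀ y : ℚ, ∃ g : G, tr (y + g) w₀ ∈ U₁ := by
    intro y
    obtain ⟨g, hg, h⟩ := hG (tr y w₀) (hMi y w₀ hw₀M)
    refine ⟨⟨g, hg⟩, ?_⟩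
    rw [tr_tr] at h
    rwa [add_comm y g]
  choose C hC using hC
  obtain ⟨a, ha, b, g, hg⟩ := Combinatorics.exists_mono_homothetic_copy (insert 0 Z) C
  have ha' : (0 : ℚ) < a := by exact_mod_cast ha
  have hmem : ∀ z ∈ insert 0 Z, tr (z * a) (tr (b + g) w₀) ∈ U₁ := by
    intro z hz
    have h1 := hC (a • z + b)
    rw [hg z hz] at h1
    rw [tr_tr]
    convert h1 using 2
    rw [nsmul_eq_mul]
    ring
  refine ⟨a, U₁ ∩ ⋂ z ∈ Z, (tr (z * a)) ⁻¹' U₁, ha', ?_, ?_, ?_, ?_⟩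
  · exact hU₁.inter (isClopen_biInter_finset fun z _ => hU₁.preimage (continuous_tr _))
  · refine ⟨tr (b + g) w₀, ⟨?_, ?_⟩, hMi _ _ hw₀M⟩
    · have := hmem 0 (Finset.mem_insert_self _ _)
      rw [zero_mul, tr_tr, zero_add] at this
      exact this
    · exact Set.mem_iInter₂.2 fun z hz => hmem z (Finset.mem_insert_of_mem hz)
  · intro w hw
    exact hw.1.1
  · rintro w ⟨hw, hw'⟩ z hz
    have h1 : tr (z * a) w ∈ U₁ := Set.mem_iInter₂.1 hw' z hz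
    refine ⟨h1.1, fun v hv => ?_⟩
    have h2 : tr (z * a) w 0 v = w₀ 0 v := Set.mem_iInter₂.1 h1.2 v hv
    have h3 : w 0 v = w₀ 0 v := Set.mem_iInter₂.1 hw.2 v hv
    rw [h3, ← h2]
    simp [tr]

/-- Level zero theorem. -/
theorem level_zero (χ : ℚ → κ) :
    ∃ (w : ℚ → ℚ → κ) (f : ℕ → ℚ) (E : ℕ → Finset ℚ), (∀ n, 0 < f n) ∧ Monotone E ∧
      (∀ q, ∃ n, q ∈ E n) ∧
      (∀ Y V : Finset ℚ, ∃ x : ℚ, ∀ y ∈ Y, ∀ v ∈ V, χ (v * (x + y)) = w y v) ∧
      (∀ N M g, Good E f N M g → ∀ v ∈ E N, w g v = w 0 v) := by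
  classical
  -- orbit closure
  let η : ℚ → ℚ → κ := fun y v => χ (v * y)
  let X : Set (ℚ → ℚ → κ) := closure (Set.range fun x => tr x η)
  have hXi : ∀ x, ∀ w ∈ X, tr x w ∈ X := by
    intro x w hw
    have h1 : tr x w ∈ closure ((tr x) '' (Set.range fun x => tr x η)) :=
      image_closure_subset_closure_image (continuous_tr x) ⟨w, hw, rfl⟩
    refine closure_mono ?_ h1
    rintro _ ⟨_, ⟨y, rfl⟩, rfl⟩
    exact ⟨x + y, (tr_tr _ _ _).symm⟩
  obtain ⟨M, hMX, hMc, hMn, hMi, hMmin⟩ := exists_minimal_system X isClosed_closure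
    ⟨tr 0 η, subset_closure ⟨0, rfl⟩⟩ hXi
  -- exhaustion
  obtain ⟨q, hq⟩ := exists_surjective_nat ℚ
  let E : ℕ → Finset ℚ := fun n => (Finset.range n).image q
  have hEmono : Monotone E := fun a b hab =>
    Finset.image_subset_image (Finset.range_mono hab)
  have hEex : ∀ x, ∃ n, x ∈ E n := by
    intro x
    obtain ⟨n, rfl⟩ := hq x
    exact ⟨n + 1, Finset.mem_image_of_mem q (Finset.mem_range.2 (Nat.lt_succ_self n))⟩
  -- recursion
  let St := {U : Set (ℚ → ℚ → κ) // IsClopen U ∧ (U ∩ M).Nonempty}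
  have hstep : ∀ (n : ℕ) (U : St), ∃ p : ℚ × St, 0 < p.1 ∧ p.2.1 ⊆ U.1 ∧
      ∀ w ∈ p.2.1, ∀ z ∈ E n, tr (z * p.1) w ∈ U.1 ∧ ∀ v ∈ E n, w (z * p.1) v = w 0 v := by
    intro n U
    obtain ⟨f, U', h1, h2, h3, h4, h5⟩ := level_step M hMi hMmin U.1 U.2.1 U.2.2 (E n)
    exact ⟨(f, ⟨U', h2, h3⟩), h1, h4, h5⟩
  choose F hF using hstep
  let U : ℕ → St := fun n => Nat.rec ⟨Set.univ, isClopen_univ, by simpa using hMn⟩
    (fun n V => (F n V).2) n
  have hU : ∀ n, U (n + 1) = (F n (U n)).2 := fun n => rfl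
  let f : ℕ → ℚ := fun n => (F n (U n)).1
  have hanti : ∀ n, (U (n + 1)).1 ⊆ (U n).1 := by
    intro n
    rw [hU]
    exact (hF n (U n)).2.1
  have hne : (⋂ n, ((U n).1 ∩ M)).Nonempty := by
    refine IsCompact.nonempty_iInter_of_sequence_nonempty_isCompact_isClosed _ ?_ ?_ ?_ ?_
    · intro n
      exact Set.inter_subset_inter_left _ (hanti n)
    · intro n; exact (U n).2.2
    · exact ((U 0).2.1.isClosed.inter hMc).isCompact
    · intro n; exact (U n).2.1.isClosed.inter hMc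
  obtain ⟨w, hw⟩ := hne
  have hwU : ∀ n, w ∈ (U n).1 := fun n => (Set.mem_iInter.1 hw n).1
  have hwM : w ∈ M := (Set.mem_iInter.1 hw 0).2
  refine ⟨w, f, E, fun n => (hF n (U n)).1, hEmono, hEex, ?_, ?_⟩
  · intro Y V
    have hwX : w ∈ X := hMX hwM
    have hopen : IsOpen (⋂ y ∈ Y, ⋂ v ∈ V, {w' : ℚ → ℚ → κ | w' y v = w y v}) :=
      (isClopen_biInter_finset fun y _ => isClopen_biInter_finset fun v _ =>
        isClopen_cyl _ _ _).isOpen
    have hmem : w ∈ (⋂ y ∈ Y, ⋂ v ∈ V, {w' : ℚ → ℚ → κ | w' y v = w y v}) := by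
      simp
    obtain ⟨w', hw', x, rfl⟩ := mem_closure_iff.1 hwX _ hopen hmem
    refine ⟨x, fun y hy v hv => ?_⟩
    have := Set.mem_iInter₂.1 (Set.mem_iInter₂.1 hw' y hy) v hv
    simp only [Set.mem_ofPred_eq, tr, η] at this
    rw [← this, add_comm x y]
  · intro N M' g hg
    have key : ∀ w' ∈ (U M').1, tr g w' ∈ (U N).1 ∧ ∀ v ∈ E N, w' g v = w' 0 v := by
      induction hg with
      | zero =>
        intro w' hw'
        refine ⟨?_, fun v _ => rfl⟩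
        have : tr 0 w' = w' := by funext y; simp [tr]
        rwa [this]
      | skip _ ih =>
        intro w' hw'
        exact ih w' (hanti _ hw')
      | @add M'' g z hg hz ih =>
        intro w' hw'
        rw [hU] at hw'
        obtain ⟨h1, h2⟩ := (hF M'' (U M'')).2.2 w' hw' z hz
        obtain ⟨h3, h4⟩ := ih _ h1
        refine ⟨?_, fun v hv => ?_⟩
        · rw [tr_tr] at h3
          exact h3
        · have h5 := h4 v hv
          have h6 := h2 v (hEmono hg.le hv)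
          simp only [tr, zero_add] at h5
          rw [← h6, ← h5]
    exact (key w (hwU M')).2

end Level

end Pool.Agent.Lib.MP_cf885c_co
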