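import Pool.Agent.Lib.MP_cf885c_co.Level

set_option autoImplicit false

/-!
The main theorem: nine numbers `a`, `a + b`, `a + c`, `a + b + c`, `a + b c`, `a b`, `a c`,
`a (b + c)`, `a b c` of one colour.
-/

namespace Pool.Agent.Lib.MP_cf885c_co

open Filter Topology

/-- The pattern without nondegeneracy of `a` and of `b - c`. -/
theorem pattern_aux {κ : Type} [Finite κ] (χ : ℚ → κ) :
    ∃ a b c : ℚ, 0 < b ∧ 0 < c ∧ ∃ s : κ, χ a = s ∧
      χ (a + b) = s ∧ χ (a + c) = s ∧ χ (a + (b + c)) = s ∧ χ (a + b * c) = s ∧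
      χ (a * b) = s ∧ χ (a * c) = s ∧ χ (a * (b + c)) = s ∧ χ (a * (b * c)) = s := by
  classical
  let _ : TopologicalSpace κ := ⊥
  have _ : DiscreteTopology κ := ⟨rfl⟩
  obtain ⟨w, f, E, hf, hEmono, hEex, hreal, habs⟩ := level_zero χ
  obtain ⟨L, hL, hdil, hlet⟩ := exists_letter_mean f
  set φ : ℚ → κ := fun v => w 0 v with hφ
  obtain ⟨m, m', s, d, hm, hm', hd, hpop⟩ := exists_popular hL φ
  set H : ℚ → Prop := fun B => φ B = s ∧
    d ≤ conv L m' (ind (fun Q => φ Q = s ∧ φ (B + Q) = s)) with hH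
  have hHpos : 0 < conv L m (ind H) := lt_of_lt_of_le hd hpop
  -- choose a generic sequence
  obtain ⟨B, hB, hBr⟩ := exists_seq_of_forall_finset_exists
    (fun B : ℚ => 0 < B ∧ H B)
    (fun u B : ℚ => ∃ N M, u ∈ E N ∧ Good E f N M ((u ^ 2)⁻¹ * B)) (by
      intro S _
      have hN : ∃ N, ∀ u ∈ S, u ∈ E N := by
        choose n hn using hEex
        refine ⟨S.sup n, fun u hu => hEmono (Finset.le_sup hu) (hn u)⟩
      obtain ⟨N, hN⟩ := hN
      obtain ⟨g, M, hg, hNM, -, hg0, hgood⟩ := selection hf hEmono hEex hL hlet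
        (S.image fun u => (u ^ 2)⁻¹) m H N hHpos
      exact ⟨g, ⟨hg0 hm, hg⟩, fun u hu =>
        ⟨N, M, hN u hu, hgood _ (Finset.mem_image_of_mem _ hu)⟩⟩)
  -- pigeonhole
  have hconv := isMean_conv hL m'
  obtain ⟨i, j, hij, hpos⟩ := pigeonhole hconv hd
    (fun n z => φ ((B n)⁻¹ * z) = s ∧ φ (B n + (B n)⁻¹ * z) = s) (by
      intro n
      have h1 := conv_dilate hL (hdil (B n)⁻¹ (inv_pos.2 (hB n).1)) m'
        (ind (fun Q => φ Q = s ∧ φ (B n + Q) = s)) (ind_bdd _)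
      have h2 : (fun x => ind (fun Q => φ Q = s ∧ φ (B n + Q) = s) ((B n)⁻¹ * x))
          = ind (fun z => φ ((B n)⁻¹ * z) = s ∧ φ (B n + (B n)⁻¹ * z) = s) := by
        funext x
        simp [ind]
      rw [h2] at h1
      rw [h1]
      exact (hB n).2.2)
  obtain ⟨hu0, hui, -⟩ := hB i
  obtain ⟨hB0, hBj, -⟩ := hB j
  obtain ⟨N, M, huN, hg1⟩ := hBr i j hij
  set u := B i with hu
  set V := B j with hV
  obtain ⟨z, M', ⟨⟨hz1, -⟩, hz2, hz3⟩, hMM', -, hz0, hzgood⟩ := selection hf hEmono hEex hL hlet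
    {(V * u ^ 2)⁻¹, (u ^ 3)⁻¹} m' _ M hpos
  have hz : 0 < z := hz0 hm'
  have hNM : N ≤ M := hg1.le
  have hg1' : Good E f N M' ((u ^ 2)⁻¹ * V) := hg1.extend' hMM'
  have hg2 : Good E f N M' ((V * u ^ 2)⁻¹ * z) := (hzgood _ (by simp)).of_le hNM
  have hg3 : Good E f N M' ((u ^ 2)⁻¹ * V + (V * u ^ 2)⁻¹ * z) :=
    hg1.concat (hzgood _ (by simp))
  have hg4 : Good E f N M' ((u ^ 3)⁻¹ * z) := (hzgood _ (by simp)).of_le hNM
  obtain ⟨x, hx⟩ := hreal {0, (u ^ 2)⁻¹ * V, (V * u ^ 2)⁻¹ * z,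
    (u ^ 2)⁻¹ * V + (V * u ^ 2)⁻¹ * z, (u ^ 3)⁻¹ * z}
    {u, V, V⁻¹ * z, V + V⁻¹ * z, u⁻¹ * z}
  have hu' : u ≠ 0 := hu0.ne'
  have hV' : V ≠ 0 := hB0.ne'
  refine ⟨u * x, V / u, V⁻¹ * z / u, by positivity, by positivity, s, ?_, ?_, ?_, ?_, ?_, ?_,
    ?_, ?_, ?_⟩
  · have := hx 0 (by simp) u (by simp)
    rw [add_zero] at this
    rw [this]
    exact hui
  · have := hx ((u ^ 2)⁻¹ * V) (by simp) u (by simp)
    rw [habs N M' _ hg1' u huN] at this
    refine Eq.trans ?_ (this.trans hui)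
    congr 1
    field_simp
  · have := hx ((V * u ^ 2)⁻¹ * z) (by simp) u (by simp)
    rw [habs N M' _ hg2 u huN] at this
    refine Eq.trans ?_ (this.trans hui)
    congr 1
    field_simp
  · have := hx ((u ^ 2)⁻¹ * V + (V * u ^ 2)⁻¹ * z) (by simp) u (by simp)
    rw [habs N M' _ hg3 u huN] at this
    refine Eq.trans ?_ (this.trans hui)
    congr 1
    field_simp
  · have := hx ((u ^ 3)⁻¹ * z) (by simp) u (by simp)
    rw [habs N M' _ hg4 u huN] at this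
    refine Eq.trans ?_ (this.trans hui)
    congr 1
    field_simp
  · have := hx 0 (by simp) V (by simp)
    rw [add_zero] at this
    refine Eq.trans ?_ (this.trans hBj)
    congr 1
    field_simp
  · have := hx 0 (by simp) (V⁻¹ * z) (by simp)
    rw [add_zero] at this
    refine Eq.trans ?_ (this.trans hz2)
    congr 1
    field_simp
  · have := hx 0 (by simp) (V + V⁻¹ * z) (by simp)
    rw [add_zero] at this
    refine Eq.trans ?_ (this.trans hz3)
    congr 1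
    field_simp
  · have := hx 0 (by simp) (u⁻¹ * z) (by simp)
    rw [add_zero] at this
    refine Eq.trans ?_ (this.trans hz1)
    congr 1
    field_simp

/-- The pattern, nondegenerate. -/
theorem pattern {κ : Type} [Finite κ] (χ : ℚ → κ) :
    ∃ a b c : ℚ, a ≠ 0 ∧ 0 < b ∧ 0 < c ∧ b ≠ c ∧ ∃ s : κ, χ a = s ∧
      χ (a + b) = s ∧ χ (a + c) = s ∧ χ (a + (b + c)) = s ∧ χ (a + b * c) = s ∧
      χ (a * b) = s ∧ χ (a * c) = s ∧ χ (a * (b + c)) = s ∧ χ (a * (b * c)) = s := by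
  classical
  obtain ⟨a, b, c, hb, hc, ⟨s, p, q⟩, h0, h1, h2, h3, h4, h5, h6, h7, h8⟩ := pattern_aux
    (fun x : ℚ => ((χ x, decide (x = 0), decide (Even (padicValRat 2 x))) : κ × Bool × Bool))
  simp only [Prod.mk.injEq] at h0 h1 h2 h3 h4 h5 h6 h7 h8
  have ha : a ≠ 0 := by
    rintro rfl
    have e1 := h1.2.1
    have e5 := h5.2.1
    rw [zero_mul] at e5
    rw [zero_add, ← e5] at e1
    simp at e1
    exact hb.ne' e1
  refine ⟨a, b, c, ha, hb, hc, ?_, s, h0.1, h1.1, h2.1, h3.1, h4.1, h5.1, h6.1, h7.1, h8.1⟩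
  rintro rfl
  have hab : a * b ≠ 0 := mul_ne_zero ha hb.ne'
  have e5 := h5.2.2
  have e7 := h7.2.2
  have h2ab : a * (b + b) = 2 * (a * b) := by ring
  rw [h2ab, padicValRat.mul (by norm_num) hab] at e7
  have h22 : padicValRat 2 (2 : ℚ) = 1 := by
    have := padicValRat.self (p := 2) (by norm_num)
    simpa using this
  rw [h22, ← e5] at e7
  have e8 : Even (1 + padicValRat 2 (a * b)) ↔ Even (padicValRat 2 (a * b)) :=
    decide_eq_decide.1 e7
  rw [Int.even_add] at e8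
  simp only [Int.not_even_one, false_iff] at e8
  tauto

end Pool.Agent.Lib.MP_cf885c_co
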