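import Mathlib

set_option autoImplicit false

/-!
Finitely additive means: ultrafilter limits, invariant means on countable commutative monoids,
convolution powers.
-/

namespace Pool.Agent.Lib.MP_cf885c_co

open Filter Topology

/-- bounded real function -/
def Bdd {α : Type*} (f : α → ℝ) : Prop := ∃ C : ℝ, ∀ x, |f x| ≤ C

lemma Bdd.add {α : Type*} {f g : α → ℝ} (hf : Bdd f) (hg : Bdd g) :
    Bdd (fun x => f x + g x) := by
  obtain ⟨C, hC⟩ := hf
  obtain ⟨D, hD⟩ := hg
  exact ⟨C + D, fun x => (abs_add_le _ _).trans (add_le_add (hC x) (hD x))⟩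

lemma Bdd.mul {α : Type*} {f g : α → ℝ} (hf : Bdd f) (hg : Bdd g) :
    Bdd (fun x => f x * g x) := by
  obtain ⟨C, hC⟩ := hf
  obtain ⟨D, hD⟩ := hg
  refine ⟨C * D, fun x => ?_⟩
  rw [abs_mul]
  exact mul_le_mul (hC x) (hD x) (abs_nonneg _) ((abs_nonneg _).trans (hC x))

lemma Bdd.const {α : Type*} (c : ℝ) : Bdd (fun _ : α => c) := ⟨|c|, fun _ => le_rfl⟩

lemma Bdd.comp {α β : Type*} {f : α → ℝ} (hf : Bdd f) (g : β → α) : Bdd (fun x => f (g x)) := by
  obtain ⟨C, hC⟩ := hf
  exact ⟨C, fun x => hC _⟩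

lemma Bdd.sum {α ι : Type*} (s : Finset ι) {f : ι → α → ℝ} (hf : ∀ i ∈ s, Bdd (f i)) :
    Bdd (fun x => ∑ i ∈ s, f i x) := by
  classical
  induction s using Finset.induction_on with
  | empty => simpa using Bdd.const (α := α) 0
  | insert a s ha ih =>
    simp only [Finset.sum_insert ha]
    exact (hf a (Finset.mem_insert_self a s)).add
      (ih fun i hi => hf i (Finset.mem_insert_of_mem hi))

/-- A normalized positive additive functional on bounded functions. -/
structure IsMean {α : Type*} (L : (α → ℝ) → ℝ) : Prop where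
  add : ∀ f g, Bdd f → Bdd g → L (fun x => f x + g x) = L f + L g
  mono : ∀ f g, Bdd f → Bdd g → (∀ x, f x ≤ g x) → L f ≤ L g
  const : ∀ c, L (fun _ => c) = c

lemma IsMean.bound {α : Type*} {L : (α → ℝ) → ℝ} (hL : IsMean L) {f : α → ℝ} {C : ℝ}
    (hf : ∀ x, |f x| ≤ C) : |L f| ≤ C := by
  have hb : Bdd f := ⟨C, hf⟩
  rw [abs_le]
  constructor
  · have := hL.mono (fun _ => -C) f (Bdd.const _) hb (fun x => (abs_le.1 (hf x)).1)
    rwa [hL.const] at this
  · have := hL.mono f (fun _ => C) hb (Bdd.const _) (fun x => (abs_le.1 (hf x)).2)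
    rwa [hL.const] at this

lemma IsMean.sum {α ι : Type*} {L : (α → ℝ) → ℝ} (hL : IsMean L) (s : Finset ι)
    {f : ι → α → ℝ} (hf : ∀ i ∈ s, Bdd (f i)) :
    L (fun x => ∑ i ∈ s, f i x) = ∑ i ∈ s, L (f i) := by
  classical
  induction s using Finset.induction_on with
  | empty => simpa using hL.const 0
  | insert a s ha ih =>
    simp only [Finset.sum_insert ha]
    rw [hL.add _ _ (hf a (Finset.mem_insert_self a s))
      (Bdd.sum s fun i hi => hf i (Finset.mem_insert_of_mem hi)),
      ih fun i hi => hf i (Finset.mem_insert_of_mem hi)]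

/-- limit along an ultrafilter -/
noncomputable def ulim {ι : Type*} (U : Ultrafilter ι) (f : ι → ℝ) : ℝ :=
  limUnder (U : Filter ι) f

lemma ulim_spec {ι : Type*} (U : Ultrafilter ι) {f : ι → ℝ} (hf : Bdd f) :
    Tendsto f U (𝓝 (ulim U f)) := by
  apply tendsto_nhds_limUnder
  obtain ⟨C, hC⟩ := hf
  obtain ⟨x, -, hx⟩ := (isCompact_Icc (a := -C) (b := C)).ultrafilter_le_nhds (U.map f) (by
    rw [le_principal_iff]
    change f ⁻¹' (Set.Icc (-C) C) ∈ (U : Filter ι)
    convert Filter.univ_mem
    ext i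
    simpa using abs_le.1 (hC i))
  exact ⟨x, hx⟩

lemma isMean_ulim {ι : Type*} (U : Ultrafilter ι) : IsMean (ulim U) where
  add f g hf hg := by
    exact tendsto_nhds_unique (ulim_spec U (hf.add hg)) ((ulim_spec U hf).add (ulim_spec U hg))
  mono f g hf hg h := le_of_tendsto_of_tendsto' (ulim_spec U hf) (ulim_spec U hg) h
  const c := tendsto_nhds_unique (ulim_spec U (Bdd.const c)) tendsto_const_nhds

lemma ulim_congr {ι : Type*} (U : Ultrafilter ι) {f g : ι → ℝ} (hf : Bdd f) (hg : Bdd g)
    (h : Tendsto (fun i => f i - g i) U (𝓝 0)) : ulim U f = ulim U g := by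
  have h1 := (ulim_spec U hf).sub (ulim_spec U hg)
  have := tendsto_nhds_unique h1 h
  linarith

lemma ulim_eq_of_eventually {ι : Type*} (U : Ultrafilter ι) {f : ι → ℝ} {c : ℝ} (hf : Bdd f)
    (h : ∀ᶠ i in (U : Filter ι), f i = c) : ulim U f = c :=
  tendsto_nhds_unique (ulim_spec U hf)
    (tendsto_const_nhds.congr' (by filter_upwards [h] with i hi using hi.symm))

section InvMean

variable {G : Type*} [CommMonoid G]

/-- iterated geometric averages -/
noncomputable def avgL (N : ℕ) : List G → (G → ℝ) → G → ℝ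
  | [], h => h
  | s :: l, h => fun z => (∑ k ∈ Finset.range N, avgL N l h (s ^ k * z)) / N

lemma avgL_bound {N : ℕ} (hN : 0 < N) {C : ℝ} (l : List G) {h : G → ℝ} (hh : ∀ x, |h x| ≤ C) :
    ∀ x, |avgL N l h x| ≤ C := by
  induction l with
  | nil => exact hh
  | cons s l ih =>
    intro x
    have hN' : (0 : ℝ) < N := by exact_mod_cast hN
    simp only [avgL]
    rw [abs_div, abs_of_pos hN', div_le_iff₀ hN']
    calc |∑ k ∈ Finset.range N, avgL N l h (s ^ k * x)|
        ≤ ∑ k ∈ Finset.range N, |avgL N l h (s ^ k * x)| := Finset.abs_sum_le_sum_abs _ _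
      _ ≤ ∑ _k ∈ Finset.range N, C := Finset.sum_le_sum fun k _ => ih _
      _ = C * N := by simp [mul_comm]

lemma avgL_add {N : ℕ} (l : List G) (f g : G → ℝ) :
    ∀ x, avgL N l (fun x => f x + g x) x = avgL N l f x + avgL N l g x := by
  induction l with
  | nil => intro x; rfl
  | cons s l ih =>
    intro x
    simp only [avgL]
    rw [← add_div, ← Finset.sum_add_distrib]
    congr 1
    exact Finset.sum_congr rfl fun k _ => ih _

lemma avgL_mono {N : ℕ} (l : List G) {f g : G → ℝ} (h : ∀ x, f x ≤ g x) :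
    ∀ x, avgL N l f x ≤ avgL N l g x := by
  induction l with
  | nil => exact h
  | cons s l ih =>
    intro x
    simp only [avgL]
    gcongr with k _
    exact ih _

lemma avgL_const {N : ℕ} (hN : 0 < N) (l : List G) (c : ℝ) :
    ∀ x : G, avgL N l (fun _ => c) x = c := by
  induction l with
  | nil => intro x; rfl
  | cons s l ih =>
    intro x
    have hN' : (N : ℝ) ≠ 0 := by exact_mod_cast hN.ne'
    simp only [avgL, ih]
    simp [hN']

lemma avgL_comm {N : ℕ} (l : List G) (g : G) (h : G → ℝ) :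
    ∀ x, avgL N l (fun x => h (g * x)) x = avgL N l h (g * x) := by
  induction l with
  | nil => intro x; rfl
  | cons s l ih =>
    intro x
    simp only [avgL, ih]
    congr 1
    refine Finset.sum_congr rfl fun k _ => ?_
    rw [mul_left_comm]

lemma avgL_diff {N : ℕ} (hN : 0 < N) {C : ℝ} (l : List G) (g : G) (hg : g ∈ l) {h : G → ℝ}
    (hh : ∀ x, |h x| ≤ C) :
    ∀ x, |avgL N l h (g * x) - avgL N l h x| ≤ 2 * C / N := by
  have hN' : (0 : ℝ) < N := by exact_mod_cast hN
  induction l with
  | nil => simp at hg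
  | cons s l ih =>
    intro x
    simp only [avgL]
    rw [← sub_div, ← Finset.sum_sub_distrib, abs_div, abs_of_pos hN']
    rcases List.mem_cons.1 hg with rfl | hg
    · have h1 : ∀ k, avgL N l h (g ^ k * (g * x)) = avgL N l h (g ^ (k + 1) * x) := by
        intro k
        rw [pow_succ, mul_assoc]
      simp only [h1]
      rw [Finset.sum_range_sub (fun k => avgL N l h (g ^ k * x))]
      gcongr
      have h2 := avgL_bound hN l hh
      calc |avgL N l h (g ^ N * x) - avgL N l h (g ^ 0 * x)|
          ≤ |avgL N l h (g ^ N * x)| + |avgL N l h (g ^ 0 * x)| := abs_sub _ _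
        _ ≤ C + C := add_le_add (h2 _) (h2 _)
        _ = 2 * C := by ring
    · rw [div_le_iff₀ hN']
      calc |∑ k ∈ Finset.range N, (avgL N l h (s ^ k * (g * x)) - avgL N l h (s ^ k * x))|
          ≤ ∑ k ∈ Finset.range N, |avgL N l h (s ^ k * (g * x)) - avgL N l h (s ^ k * x)| :=
            Finset.abs_sum_le_sum_abs _ _
        _ ≤ ∑ _k ∈ Finset.range N, 2 * C / N := by
            refine Finset.sum_le_sum fun k _ => ?_
            have := ih hg (s ^ k * x)
            rwa [mul_left_comm] at this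
        _ = 2 * C / N * N := by simp [mul_comm]

/-- existence of an invariant mean on a countable commutative monoid -/
theorem exists_inv_mean (G : Type*) [CommMonoid G] [Countable G] :
    ∃ m : (G → ℝ) → ℝ, IsMean m ∧ ∀ g : G, ∀ f : G → ℝ, Bdd f → m (fun x => f (g * x)) = m f := by
  obtain ⟨s, hs⟩ := exists_surjective_nat G
  let U : Ultrafilter ℕ := Filter.hyperfilter ℕ
  have hU : (U : Filter ℕ) ≤ atTop := by
    rw [← Nat.cofinite_eq_atTop]
    exact Filter.hyperfilter_le_cofinite
  let A : (G → ℝ) → ℕ → ℝ := fun f N => avgL (N + 1) ((List.range N).map s) f 1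
  have hA : ∀ f, Bdd f → Bdd (A f) := by
    rintro f ⟨C, hC⟩
    exact ⟨C, fun N => avgL_bound (Nat.succ_pos N) _ hC 1⟩
  refine ⟨fun f => ulim U (A f), ⟨?_, ?_, ?_⟩, ?_⟩
  · intro f g hf hg
    have : A (fun x => f x + g x) = fun N => A f N + A g N := by
      funext N
      exact avgL_add _ _ _ _
    change ulim U (A (fun x => f x + g x)) = _
    rw [this]
    exact (isMean_ulim U).add _ _ (hA f hf) (hA g hg)
  · intro f g hf hg h
    exact (isMean_ulim U).mono _ _ (hA f hf) (hA g hg) fun N => avgL_mono _ h _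
  · intro c
    have : A (fun _ => c) = fun _ => c := by
      funext N
      exact avgL_const (Nat.succ_pos N) _ _ _
    change ulim U (A (fun _ => c)) = _
    rw [this]
    exact (isMean_ulim U).const c
  · intro g f hf
    obtain ⟨C, hC⟩ := hf
    obtain ⟨n, rfl⟩ := hs g
    refine ulim_congr U (hA _ ⟨C, fun x => hC _⟩) (hA _ ⟨C, hC⟩) ?_
    have h0 : Tendsto (fun N : ℕ => 2 * C / ((N : ℝ) + 1)) atTop (𝓝 0) :=
      tendsto_const_div_atTop_nhds_zero_nat (2 * C) |>.comp (tendsto_add_atTop_nat 1)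
        |>.congr (fun N => by simp)
    refine squeeze_zero_norm' ?_ (h0.mono_left hU)
    have hev : ∀ᶠ N in (U : Filter ℕ), n < N := hU (eventually_gt_atTop n)
    filter_upwards [hev] with N hN
    have hmem : s n ∈ (List.range N).map s :=
      List.mem_map.2 ⟨n, List.mem_range.2 hN, rfl⟩
    have := avgL_diff (Nat.succ_pos N) _ (s n) hmem hC 1
    rw [Real.norm_eq_abs]
    simp only [A]
    rw [avgL_comm]
    simpa using this

end InvMean

/-- convolution powers of a functional on functions of a rational variable -/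
noncomputable def conv (L : (ℚ → ℝ) → ℝ) : ℕ → (ℚ → ℝ) → ℝ
  | 0, f => f 0
  | m + 1, f => L (fun y => conv L m (fun x => f (y + x)))

lemma conv_bound {L : (ℚ → ℝ) → ℝ} (hL : IsMean L) {C : ℝ} (m : ℕ) :
    ∀ {f : ℚ → ℝ}, (∀ x, |f x| ≤ C) → |conv L m f| ≤ C := by
  induction m with
  | zero => intro f hf; exact hf 0
  | succ m ih =>
    intro f hf
    exact hL.bound fun y => ih fun x => hf _

lemma conv_bdd {L : (ℚ → ℝ) → ℝ} (hL : IsMean L) (m : ℕ) {f : ℚ → ℝ} (hf : Bdd f) :
    Bdd (fun y => conv L m (fun x => f (y + x))) := by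
  obtain ⟨C, hC⟩ := hf
  exact ⟨C, fun y => conv_bound hL m fun x => hC _⟩

lemma isMean_conv {L : (ℚ → ℝ) → ℝ} (hL : IsMean L) (m : ℕ) : IsMean (conv L m) := by
  induction m with
  | zero => exact ⟨fun f g _ _ => rfl, fun f g _ _ h => h 0, fun c => rfl⟩
  | succ m ih =>
    refine ⟨?_, ?_, ?_⟩
    · intro f g hf hg
      have : (fun y => conv L m (fun x => f (y + x) + g (y + x)))
          = fun y => conv L m (fun x => f (y + x)) + conv L m (fun x => g (y + x)) := by
        funext y
        exact ih.add _ _ (hf.comp _) (hg.comp _)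
      change L (fun y => conv L m (fun x => f (y + x) + g (y + x))) = _
      rw [this]
      exact hL.add _ _ (conv_bdd hL m hf) (conv_bdd hL m hg)
    · intro f g hf hg h
      exact hL.mono _ _ (conv_bdd hL m hf) (conv_bdd hL m hg) fun y =>
        ih.mono _ _ (hf.comp _) (hg.comp _) fun x => h _
    · intro c
      change L (fun y => conv L m (fun _ => c)) = c
      simp only [ih.const, hL.const]

lemma conv_dilate {L : (ℚ → ℝ) → ℝ} (hL : IsMean L) {g : ℚ}
    (hg : ∀ f : ℚ → ℝ, Bdd f → L (fun x => f (g * x)) = L f) (m : ℕ) :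
    ∀ f : ℚ → ℝ, Bdd f → conv L m (fun x => f (g * x)) = conv L m f := by
  induction m with
  | zero => intro f _; simp [conv]
  | succ m ih =>
    intro f hf
    change L (fun y => conv L m (fun x => f (g * (y + x)))) = _
    have : (fun y => conv L m (fun x => f (g * (y + x))))
        = fun y => (fun y' => conv L m (fun x => f (y' + x))) (g * y) := by
      funext y
      have := ih (fun x => f (g * y + x)) (hf.comp _)
      simp only [mul_add]
      exact this
    rw [this, hg _ (conv_bdd hL m hf)]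
    rfl

end Pool.Agent.Lib.MP_cf885c_co
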